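import Pool.Agent.W761.CC.Stms
import Pool.Agent.W753.CB.Trans

/-!
# CC-UPT: the upper bound of the energy on the torus
-/

set_option autoImplicit false

open MeasureTheory
open scoped ENNReal

namespace Pool.Agent.W74.CC

open Pool.Agent.W761.CB Pool.Agent.W761.CC

noncomputable section

section rep

variable {n : ℕ} {L : ℝ} [hL : Fact (0 < L)]

/-- the representative in the box -/
def rep (x : Tor n L) : Fin n → ℝ := fun c =>
  ((AddCircle.equivIoc L (-(L / 2)) (x c) : Set.Ioc (-(L / 2)) (-(L / 2) + L)) : ℝ)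

theorem rep_mem (x : Tor n L) (c : Fin n) : -(L / 2) < rep x c ∧ rep x c ≤ L / 2 := by
  have h := (AddCircle.equivIoc L (-(L / 2)) (x c)).2
  rw [Set.mem_Ioc] at h
  unfold rep
  constructor
  · exact h.1
  · linarith [h.2]

theorem pr_rep (x : Tor n L) : pr L (rep x) = x := by
  funext c
  exact (AddCircle.equivIoc L (-(L / 2))).symm_apply_apply (x c)

theorem rep_pr (w : Fin n → ℝ) (hw : ∀ c, -(L / 2) < w c ∧ w c ≤ L / 2) :
    rep (pr L w) = w := by
  funext c
  have h1 : w c ∈ Set.Ioc (-(L / 2)) (-(L / 2) + L) := by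
    rw [Set.mem_Ioc]
    constructor
    · exact (hw c).1
    · linarith [(hw c).2]
  have h2 := (AddCircle.equivIoc L (-(L / 2))).apply_symm_apply ⟨w c, h1⟩
  have h3 := congrArg (fun t : Set.Ioc (-(L / 2)) (-(L / 2) + L) => (t : ℝ)) h2
  exact h3

theorem rep_meas : Measurable (rep (n := n) (L := L)) := by
  rw [measurable_pi_iff]
  intro c
  have h1 : Measurable (AddCircle.equivIoc L (-(L / 2))) :=
    (AddCircle.measurableEquivIoc L (-(L / 2))).measurable
  exact measurable_subtype_coe.comp (h1.comp (measurable_pi_apply c))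

omit hL in
theorem pr_neg' (w : Fin n → ℝ) : pr L (-w) = - pr L w := by
  funext c
  simp [pr]

variable {f : (Fin n → ℝ) → ℝ} {a : ℝ} (hfa : ∀ z, z ∉ cube n a → f z = 1) (ha0 : 0 ≤ a)
  (haL : 4 * a < L)

include hL hfa ha0 haL in
theorem g_pr (w : Fin n → ℝ) (hw : ∀ c, |w c| < L - a) : f (rep (pr L w)) = f w := by
  by_cases h : ∀ c, -(L / 2) < w c ∧ w c ≤ L / 2
  · rw [rep_pr w h]
  · push Not at h
    obtain ⟨c, hc⟩ := h
    have hL0 : 0 < L := hL.out
    have hwc : L / 2 ≤ |w c| := by
      by_cases h1 : -(L / 2) < w c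
      · have := hc h1
        exact this.le.trans (le_abs_self _)
      · push Not at h1
        have := neg_abs_le (w c)
        linarith
    have h1 : f w = 1 := by
      apply hfa
      intro hmem
      have := hmem c
      linarith
    rw [h1]
    apply hfa
    intro hmem
    have h2 := hmem c
    -- the coordinate of the representative
    have h3 : ((rep (pr L w) c : ℝ) : AddCircle L) = ((w c : ℝ) : AddCircle L) :=
      congrFun (pr_rep (pr L w)) c
    have h4 : (((rep (pr L w) c - w c : ℝ)) : AddCircle L) = 0 := by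
      rw [AddCircle.coe_sub, h3, sub_self]
    rw [AddCircle.coe_eq_zero_iff] at h4
    obtain ⟨k, hk⟩ := h4
    rw [zsmul_eq_mul] at hk
    have hk0 : k ≠ 0 := by
      intro h0
      rw [h0, Int.cast_zero, zero_mul] at hk
      have h5 := rep_mem (pr L w) c
      have h6 : rep (pr L w) c = w c := by linarith
      rw [h6] at h5
      exact absurd h5.2 (not_le.2 (hc h5.1))
    have hk1 : (1 : ℝ) ≤ |(k : ℝ)| := by
      rw [← Int.cast_abs]
      exact_mod_cast Int.one_le_abs hk0
    have h5 : |(k : ℝ) * L| = |(k : ℝ)| * L := by rw [abs_mul, abs_of_pos hL0]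
    have h6 : |(k : ℝ) * L| ≤ |rep (pr L w) c| + |w c| := by
      rw [hk]
      exact abs_sub _ _
    have h7 := hw c
    nlinarith

include hL hfa ha0 haL in
theorem g_neg (hfe : ∀ z, f (-z) = f z) (x : Tor n L) : f (rep (-x)) = f (rep x) := by
  have h1 : -x = pr L (-rep x) := by rw [pr_neg', pr_rep]
  rw [h1, g_pr hfa ha0 haL, hfe]
  intro c
  rw [Pi.neg_apply, abs_neg]
  have := rep_mem x c
  rw [abs_lt]
  constructor <;> linarith

end rep

theorem cauchy {X : Type} [MeasurableSpace X] (ν : Measure X) (S D : X → ℝ≥0∞)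
    (hS : Measurable S) (hD : Measurable D) :
    (∫⁻ x, S x * D x ∂ν) ^ 2 ≤ (∫⁻ x, S x ^ 2 ∂ν) * ∫⁻ x, D x ^ 2 ∂ν := by
  have h1 := ENNReal.lintegral_mul_le_Lp_mul_Lq ν Real.HolderConjugate.two_two
    hS.aemeasurable hD.aemeasurable
  have h2 : ∀ y : ℝ≥0∞, (y ^ (1 / (2 : ℝ))) ^ 2 = y := by
    intro y
    rw [← ENNReal.rpow_natCast, ← ENNReal.rpow_mul]
    norm_num
  have h3 : ∀ y : ℝ≥0∞, y ^ (2 : ℝ) = y ^ 2 := by
    intro y
    rw [← ENNReal.rpow_natCast]
    norm_num
  calc (∫⁻ x, S x * D x ∂ν) ^ 2 ≤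
      ((∫⁻ x, S x ^ (2 : ℝ) ∂ν) ^ (1 / (2 : ℝ)) * (∫⁻ x, D x ^ (2 : ℝ) ∂ν) ^ (1 / (2 : ℝ))) ^ 2 :=
        pow_le_pow_left' h1 2
    _ = (∫⁻ x, S x ^ 2 ∂ν) * ∫⁻ x, D x ^ 2 ∂ν := by
        rw [mul_pow, h2, h2]
        simp only [h3]

theorem upt (hJ : S_JAS) (hT : S_TF) : S_UPT := by
  classical
  intro n μ a v f hn hμ hv hf hfe hf01 ha hfa hQ
  have hgr : gr Set.univ f ≠ ⊤ := by
    intro h
    apply hQ
    unfold QD
    rw [h, ENNReal.mul_top (by rw [ne_eq, ENNReal.ofReal_eq_zero]; linarith), top_add]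
  set G : ℝ := (gr Set.univ f).toReal with hG
  have hG0 : 0 ≤ G := ENNReal.toReal_nonneg
  have hGr : gr Set.univ f = ENNReal.ofReal G := (ENNReal.ofReal_toReal hgr).symm
  set A : ℝ := (2 * a) ^ n with hA
  have hA0 : 0 ≤ A := by positivity
  set C' : ℝ := 2 * A + n * G with hC'
  have hC'0 : 0 ≤ C' := by positivity
  refine ⟨2 * A + 2 * A * μ * G + (1 + 2 * A) * C', by positivity, ?_⟩
  intro L hL K κ z hL8 hK hκ hz0 hz1 hKκ
  have hL0 : 0 < L := hL.out
  obtain ⟨hvol, hprm, hpradd, hint, htr, hnorm, -, hvt⟩ := hT n L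
  have ha0 : 0 ≤ a := by linarith
  have haL : 4 * a < L := by linarith
  set V : ℝ := L ^ n with hV
  have hV0 : 0 ≤ V := by positivity
  -- the function on the torus
  set g : Tor n L → ℝ := fun x => f (rep x) with hg
  have hgm : Measurable g := hf.comp rep_meas
  have hg01 : ∀ x, 0 ≤ g x ∧ g x ≤ 1 := fun x => hf01 _
  have hgneg : ∀ x, g (-x) = g x := fun x => g_neg hfa ha0 haL hfe x
  have hgpr : ∀ w : Fin n → ℝ, (∀ c, |w c| < L - a) → g (pr L w) = f w := fun w hw =>
    g_pr hfa ha0 haL w hw
  -- the support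
  have hcube : MeasurableSet (cube n a) := by
    have h1 : cube n a = Set.Icc (fun _ => -a) (fun _ => a) := by
      ext z
      simp only [cube, Set.mem_Icc, Pi.le_def, abs_le, Set.mem_ofPred_eq]
      exact forall_and
    rw [h1]
    exact measurableSet_Icc
  set sp : Tor n L → ℝ≥0∞ := fun x => if rep x ∈ cube n a then 1 else 0 with hsp
  have hspm : Measurable sp :=
    Measurable.ite (rep_meas hcube) measurable_const measurable_const
  have hsp1 : ∀ x, sp x = 0 → g x = 1 := by
    intro x hx
    apply hfa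
    intro hmem
    simp only [hsp] at hx
    rw [if_pos hmem] at hx
    exact one_ne_zero hx
  have hspc : ∀ x, sp x = 0 ∨ sp x = 1 := by
    intro x
    simp only [hsp]
    split_ifs <;> simp
  have hbox : ∀ F : Tor n L → ℝ≥0∞, Measurable F → ∀ H : (Fin n → ℝ) → ℝ≥0∞,
      (∀ w : Fin n → ℝ, (∀ c, -(L / 2) < w c ∧ w c ≤ L / 2) → F (pr L w) ≤ H w) →
      ∫⁻ x, F x ≤ ∫⁻ w, H w := by
    intro F hF H hFH
    rw [hint F hF]
    refine le_trans ?_ (setLIntegral_le_lintegral
      {z : Fin n → ℝ | ∀ c, -(L / 2) < z c ∧ z c ≤ L / 2} _)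
    refine setLIntegral_mono' ?_ ?_
    · have h1 : {z : Fin n → ℝ | ∀ c, -(L / 2) < z c ∧ z c ≤ L / 2} =
          Set.pi Set.univ fun _ => Set.Ioc (-(L / 2)) (L / 2) := by
        ext z
        simp [Set.mem_pi, Set.mem_Ioc]
      rw [h1]
      exact MeasurableSet.univ_pi fun _ => measurableSet_Ioc
    · intro w hw
      exact hFH w hw
  have hspint : ∫⁻ x, sp x ≤ ENNReal.ofReal A := by
    refine (hbox sp hspm (Set.indicator (cube n a) 1) ?_).trans ?_
    · intro w hw
      simp only [hsp]
      rw [rep_pr w hw, Set.indicator_apply]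
      simp only [Pi.one_apply]
      split_ifs <;> simp
    · rw [lintegral_indicator_one hcube, Pool.Agent.W753.CB.vol_cube n ha0]
  -- the differences
  set D2 : Tor n L → ℝ≥0∞ := fun h => ∫⁻ x, ENNReal.ofReal ((g (x + h) - g x) ^ 2) with hD2
  have hD2m : ∀ h : Tor n L, Measurable fun x => ENNReal.ofReal ((g (x + h) - g x) ^ 2) := by
    intro h
    have h1 : Measurable fun x : Tor n L => g (x + h) := hgm.comp (measurable_add_const h)
    exact ((h1.sub hgm).pow_const 2).ennreal_ofReal
  have hspt : ∀ h : Tor n L, ∫⁻ x, (sp x + sp (x + h)) ≤ ENNReal.ofReal (2 * A) := by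
    intro h
    rw [lintegral_add_left hspm, htr sp hspm h]
    calc (∫⁻ x, sp x) + ∫⁻ x, sp x ≤ ENNReal.ofReal A + ENNReal.ofReal A := by gcongr
      _ = ENNReal.ofReal (2 * A) := by
          rw [← ENNReal.ofReal_add hA0 hA0]
          congr 1
          ring
  have hD2a : ∀ h, D2 h ≤ ENNReal.ofReal (2 * A) := by
    intro h
    refine (lintegral_mono fun x => ?_).trans (hspt h)
    rcases hspc x with h1 | h1
    · rcases hspc (x + h) with h2 | h2
      · rw [hsp1 x h1, hsp1 _ h2]
        simp
      · rw [h2]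
        refine le_trans ?_ le_add_self
        rw [← ENNReal.ofReal_one]
        apply ENNReal.ofReal_le_ofReal
        have h3 := hg01 x
        have h4 := hg01 (x + h)
        nlinarith
    · rw [h1]
      refine le_trans ?_ le_self_add
      rw [← ENNReal.ofReal_one]
      apply ENNReal.ofReal_le_ofReal
      have h3 := hg01 x
      have h4 := hg01 (x + h)
      nlinarith
  -- first power
  have hJ1 : ∀ h : Tor n L, (∫⁻ x, ENNReal.ofReal |g (x + h) - g x|) ^ 2 ≤
      ENNReal.ofReal (2 * A) * D2 h := by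
    intro h
    set S : Tor n L → ℝ≥0∞ := fun x => max (sp x) (sp (x + h)) with hS
    have hSm : Measurable S := hspm.max (hspm.comp (measurable_add_const h))
    have hDm : Measurable fun x => ENNReal.ofReal |g (x + h) - g x| := by
      have h1 : Measurable fun x : Tor n L => g (x + h) := hgm.comp (measurable_add_const h)
      have h2 : Measurable fun x => |g (x + h) - g x| := by
        have := (h1.sub hgm).norm
        exact this
      exact h2.ennreal_ofReal
    have h1 : ∀ x, ENNReal.ofReal |g (x + h) - g x| = S x * ENNReal.ofReal |g (x + h) - g x| := by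
      intro x
      simp only [hS]
      rcases hspc x with h1 | h1
      · rcases hspc (x + h) with h2 | h2
        · rw [hsp1 x h1, hsp1 _ h2]
          simp
        · rw [h1, h2]
          simp
      · rcases hspc (x + h) with h2 | h2
        · rw [h1, h2]
          simp
        · rw [h1, h2]
          simp
    have h2 : ∀ x, S x ^ 2 ≤ sp x + sp (x + h) := by
      intro x
      simp only [hS]
      rcases hspc x with h1 | h1 <;> rcases hspc (x + h) with h2 | h2 <;> rw [h1, h2] <;> simp
    have h3 : ∀ x, (ENNReal.ofReal |g (x + h) - g x|) ^ 2 =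
        ENNReal.ofReal ((g (x + h) - g x) ^ 2) := by
      intro x
      rw [← ENNReal.ofReal_pow (abs_nonneg _), sq_abs]
    calc (∫⁻ x, ENNReal.ofReal |g (x + h) - g x|) ^ 2
        = (∫⁻ x, S x * ENNReal.ofReal |g (x + h) - g x|) ^ 2 := by
          congr 1
          exact lintegral_congr h1
      _ ≤ (∫⁻ x, S x ^ 2) * ∫⁻ x, (ENNReal.ofReal |g (x + h) - g x|) ^ 2 :=
          cauchy _ _ _ hSm hDm
      _ ≤ ENNReal.ofReal (2 * A) * D2 h := by
          rw [lintegral_congr h3]
          exact mul_le_mul_left ((lintegral_mono h2).trans (hspt h)) _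
  -- comparison with the gradient
  have hD2k : ∀ (c : Fin n) (k : ℕ), 4 ^ k * D2 (ec L c ((2 : ℝ)⁻¹ ^ k)) ≤ gk Set.univ c k f := by
    intro c k
    unfold gk
    simp only [Set.mem_univ, true_and, Set.ofPred_true, Measure.restrict_univ]
    refine mul_le_mul_right ?_ _
    refine hbox _ (hD2m _) _ ?_
    intro w hw
    have h1 : g (pr L w) = f w := by
      simp only [hg]
      rw [rep_pr w hw]
    have h2 : pr L w + ec L c ((2 : ℝ)⁻¹ ^ k) = pr L (w + Pi.single c ((2 : ℝ)⁻¹ ^ k)) := by
      rw [hpradd]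
      rfl
    have h3 : g (pr L (w + Pi.single c ((2 : ℝ)⁻¹ ^ k))) =
        f (w + Pi.single c ((2 : ℝ)⁻¹ ^ k)) := by
      apply hgpr
      intro d
      have h4 : |(Pi.single c ((2 : ℝ)⁻¹ ^ k) : Fin n → ℝ) d| ≤ 1 := by
        have h5 : (0 : ℝ) ≤ (2 : ℝ)⁻¹ ^ k := by positivity
        have h6 : (2 : ℝ)⁻¹ ^ k ≤ 1 := pow_le_one₀ (by norm_num) (by norm_num)
        rw [Pi.single_apply]
        split_ifs
        · rw [abs_of_nonneg h5]
          exact h6
        · simp
      have h5 : |w d| ≤ L / 2 := by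
        have := hw d
        rw [abs_le]
        constructor <;> linarith
      rw [Pi.add_apply]
      have h6 := abs_add_le (w d) ((Pi.single c ((2 : ℝ)⁻¹ ^ k) : Fin n → ℝ) d)
      linarith
    rw [h2, h3, h1]
  -- complex version
  set gC : Tor n L → ℂ := fun x => (g x : ℂ) with hgC
  have hd1 : ∀ h, d1 gC h = D2 h := by
    intro h
    unfold d1
    simp only [hD2]
    refine lintegral_congr fun x => ?_
    simp only [hgC]
    rw [← Complex.ofReal_sub, ← ofReal_norm, ← ENNReal.ofReal_pow (norm_nonneg _),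
      Complex.norm_real, Real.norm_eq_abs, sq_abs]
  have hMem : MemLp gC 2 (volume : Measure (Tor n L)) := by
    refine MemLp.of_bound (Complex.measurable_ofReal.comp hgm).aestronglyMeasurable 1
      (Filter.Eventually.of_forall fun x => ?_)
    simp only [hgC]
    rw [Complex.norm_real, Real.norm_eq_abs, abs_of_nonneg (hg01 x).1]
    exact (hg01 x).2
  have hkc : ∑ c, Pool.Agent.W753.CB.kc gC c ≤ gr Set.univ f := by
    unfold gr Pool.Agent.W753.CB.kc
    refine Finset.sum_le_sum fun c _ => ?_
    refine iSup_mono fun k => ?_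
    rw [hd1]
    exact hD2k c k
  have hD2w : ∀ w : Fin n → ℝ, D2 (pr L w) ≤ ENNReal.ofReal C' * ENNReal.ofReal (min 1 (el w ^ 2)) := by
    intro w
    have hel : 0 ≤ el w := Real.sqrt_nonneg _
    rw [← ENNReal.ofReal_mul hC'0]
    rcases le_total 1 (el w ^ 2) with h1 | h1
    · rw [min_eq_left h1, mul_one]
      refine (hD2a _).trans (ENNReal.ofReal_le_ofReal ?_)
      rw [hC']
      have : 0 ≤ n * G := by positivity
      linarith
    · rw [min_eq_right h1]
      have h2 : w ∈ cube n (el w) := by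
        intro c
        unfold el
        apply Real.abs_le_sqrt
        exact Finset.single_le_sum (f := fun c => w c ^ 2) (fun c _ => sq_nonneg _)
          (Finset.mem_univ c)
      have h3 := Pool.Agent.W753.CB.d1_le gC hMem hel h2
      rw [hd1] at h3
      refine h3.trans ?_
      calc (n : ℝ≥0∞) * ENNReal.ofReal (el w ^ 2) * ∑ c, Pool.Agent.W753.CB.kc gC c
          ≤ (n : ℝ≥0∞) * ENNReal.ofReal (el w ^ 2) * ENNReal.ofReal G := by
            rw [← hGr]
            exact mul_le_mul_right hkc _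
        _ = ENNReal.ofReal (n * G * el w ^ 2) := by
            rw [ENNReal.ofReal_mul (by positivity), ENNReal.ofReal_mul (by positivity),
              ENNReal.ofReal_natCast]
            ring
        _ ≤ ENNReal.ofReal (C' * el w ^ 2) := by
            apply ENNReal.ofReal_le_ofReal
            rw [hC']
            have : 0 ≤ 2 * A * el w ^ 2 := by positivity
            nlinarith
  -- the vector
  set Fc : Tor n L → Tor n L → ℝ := fun x y => g (y - x) with hFc
  have hFcm : Measurable fun p : Tor n L × Tor n L => Fc p.1 p.2 :=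
    hgm.comp (measurable_snd.sub measurable_fst)
  have hfin : IsFiniteMeasure (volume : Measure (Tor n L)) :=
    ⟨by rw [hvol]; exact ENNReal.ofReal_lt_top⟩
  obtain ⟨φ, hφ, hφ1, hkin, hpair, hlow, hup⟩ := hJ (Tor n L) volume Fc z hz0 hFcm
    (fun x y => hg01 _) (fun x y => by
      simp only [hFc]
      rw [← hgneg (y - x), neg_sub])
  -- translation by a negative
  have htrs : ∀ F : Tor n L → ℝ≥0∞, Measurable F → ∀ h, ∫⁻ x, F (x - h) = ∫⁻ x, F x := by
    intro F hF h
    simp only [sub_eq_add_neg]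
    exact htr F hF (-h)
  -- the kinetic differences
  have hdE : ∀ h x : Tor n L, dE volume φ (x + h) x ≤ ENNReal.ofReal (z ^ 2 + 2 * A * z ^ 3) *
      D2 h := by
    intro h x
    have e1 : ∫⁻ u, ENNReal.ofReal ((Fc (x + h) u - Fc x u) ^ 2) = D2 h := by
      have h1 := htrs (fun u => ENNReal.ofReal ((g u - g (u + h)) ^ 2)) (by
        have h1 : Measurable fun x : Tor n L => g (x + h) := hgm.comp (measurable_add_const h)
        exact ((hgm.sub h1).pow_const 2).ennreal_ofReal) (x + h)
      calc ∫⁻ u, ENNReal.ofReal ((Fc (x + h) u - Fc x u) ^ 2)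
          = ∫⁻ u, ENNReal.ofReal ((g (u - (x + h)) - g (u - (x + h) + h)) ^ 2) := by
            refine lintegral_congr fun u => ?_
            simp only [hFc]
            congr 4
            abel
        _ = ∫⁻ u, ENNReal.ofReal ((g u - g (u + h)) ^ 2) := h1
        _ = D2 h := by
            refine lintegral_congr fun u => ?_
            congr 1
            ring
    have e2 : ∫⁻ u, ENNReal.ofReal |Fc (x + h) u - Fc x u| =
        ∫⁻ u, ENNReal.ofReal |g (u + h) - g u| := by
      have h1 := htrs (fun u => ENNReal.ofReal |g u - g (u + h)|) (by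
        have h1 : Measurable fun x : Tor n L => g (x + h) := hgm.comp (measurable_add_const h)
        have h2 : Measurable fun x => |g x - g (x + h)| := (hgm.sub h1).norm
        exact h2.ennreal_ofReal) (x + h)
      calc ∫⁻ u, ENNReal.ofReal |Fc (x + h) u - Fc x u|
          = ∫⁻ u, ENNReal.ofReal |g (u - (x + h)) - g (u - (x + h) + h)| := by
            refine lintegral_congr fun u => ?_
            simp only [hFc]
            congr 4
            abel
        _ = ∫⁻ u, ENNReal.ofReal |g u - g (u + h)| := h1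
        _ = _ := by
            refine lintegral_congr fun u => ?_
            rw [abs_sub_comm]
    refine (hkin (x + h) x).trans ?_
    rw [e1, e2]
    calc ENNReal.ofReal (z ^ 2) * D2 h +
          ENNReal.ofReal (z ^ 3) * (∫⁻ u, ENNReal.ofReal |g (u + h) - g u|) ^ 2
        ≤ ENNReal.ofReal (z ^ 2) * D2 h +
          ENNReal.ofReal (z ^ 3) * (ENNReal.ofReal (2 * A) * D2 h) :=
          add_le_add le_rfl (mul_le_mul_right (hJ1 h) _)
      _ = ENNReal.ofReal (z ^ 2 + 2 * A * z ^ 3) * D2 h := by
          rw [ENNReal.ofReal_add (by positivity) (by positivity),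
            ENNReal.ofReal_mul (show 0 ≤ 2 * A by positivity)]
          ring
  have hdEi : ∀ h : Tor n L, ∫⁻ x, dE volume φ (x + h) x ≤
      ENNReal.ofReal V * ENNReal.ofReal (z ^ 2 + 2 * A * z ^ 3) * D2 h := by
    intro h
    refine (lintegral_mono fun x => hdE h x).trans ?_
    rw [lintegral_const, hvol]
    apply le_of_eq
    ring
  -- kinetic energy
  have hKp : Kp φ ≤ ENNReal.ofReal V * ENNReal.ofReal (z ^ 2 + 2 * A * z ^ 3) *
      gr Set.univ f := by
    unfold Kp gr
    rw [Finset.mul_sum]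
    refine Finset.sum_le_sum fun c _ => ?_
    refine iSup_le fun k => ?_
    calc 4 ^ k * ∫⁻ x, dE volume φ (x + ec L c ((2 : ℝ)⁻¹ ^ k)) x
        ≤ 4 ^ k * (ENNReal.ofReal V * ENNReal.ofReal (z ^ 2 + 2 * A * z ^ 3) *
          D2 (ec L c ((2 : ℝ)⁻¹ ^ k))) := mul_le_mul_right (hdEi _) _
      _ = ENNReal.ofReal V * ENNReal.ofReal (z ^ 2 + 2 * A * z ^ 3) *
          (4 ^ k * D2 (ec L c ((2 : ℝ)⁻¹ ^ k))) := by ring
      _ ≤ ENNReal.ofReal V * ENNReal.ofReal (z ^ 2 + 2 * A * z ^ 3) *
          ⨆ k, gk Set.univ c k f :=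
          mul_le_mul_right ((hD2k c k).trans (le_iSup (fun k => gk Set.univ c k f) k)) _
  -- hopping energy
  have hHp : Hp K φ ≤ ENNReal.ofReal (V * (z ^ 2 + 2 * A * z ^ 3) * C' * κ) := by
    unfold Hp
    calc 2⁻¹ * ∫⁻ w, K w * ∫⁻ x, dE volume φ (x + pr L w) x
        ≤ 1 * ∫⁻ w, K w * ∫⁻ x, dE volume φ (x + pr L w) x := by
          refine mul_le_mul_left ?_ _
          exact ENNReal.inv_le_one.2 (by norm_num)
      _ = ∫⁻ w, K w * ∫⁻ x, dE volume φ (x + pr L w) x := one_mul _
      _ ≤ ∫⁻ w, ENNReal.ofReal (V * (z ^ 2 + 2 * A * z ^ 3) * C') *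
          (K w * ENNReal.ofReal (min 1 (el w ^ 2))) := by
          refine lintegral_mono fun w => ?_
          calc K w * ∫⁻ x, dE volume φ (x + pr L w) x
              ≤ K w * (ENNReal.ofReal V * ENNReal.ofReal (z ^ 2 + 2 * A * z ^ 3) *
                (ENNReal.ofReal C' * ENNReal.ofReal (min 1 (el w ^ 2)))) :=
                mul_le_mul_right ((hdEi _).trans (mul_le_mul_right (hD2w w) _)) _
            _ = ENNReal.ofReal (V * (z ^ 2 + 2 * A * z ^ 3) * C') *
                (K w * ENNReal.ofReal (min 1 (el w ^ 2))) := by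
                rw [ENNReal.ofReal_mul (by positivity), ENNReal.ofReal_mul (by positivity)]
                ring
      _ = ENNReal.ofReal (V * (z ^ 2 + 2 * A * z ^ 3) * C') *
          ∫⁻ w, K w * ENNReal.ofReal (min 1 (el w ^ 2)) := by
          rw [lintegral_const_mul']
          exact ENNReal.ofReal_ne_top
      _ ≤ ENNReal.ofReal (V * (z ^ 2 + 2 * A * z ^ 3) * C') * ENNReal.ofReal κ :=
          mul_le_mul_right hKκ _
      _ = ENNReal.ofReal (V * (z ^ 2 + 2 * A * z ^ 3) * C' * κ) := by
          rw [← ENNReal.ofReal_mul (by positivity)]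
  -- potential energy
  have hVp : Vp v φ ≤ ENNReal.ofReal (z ^ 2 * V) *
      (2⁻¹ * ∫⁻ w : Fin n → ℝ, v (el w) * ENNReal.ofReal (f w ^ 2)) := by
    unfold Vp
    have h1 : ∀ x : Tor n L, ∫⁻ y, v (tdist x y) * nE volume (an y (an x φ)) ≤
        ENNReal.ofReal (z ^ 2) * ∫⁻ w : Fin n → ℝ, v (el w) * ENNReal.ofReal (f w ^ 2) := by
      intro x
      have hpm : Measurable (Prod.mk x : Tor n L → Tor n L × Tor n L) := measurable_prodMk_left
      have hvm : Measurable fun y : Tor n L => v (tdist x y) := by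
        have h00 := (hvt v hv).1.comp hpm
        exact h00
      have h2 : ∫⁻ y, v (tdist x y) * nE volume (an y (an x φ)) ≤
          ENNReal.ofReal (z ^ 2) * ∫⁻ y, v (tdist x y) * ENNReal.ofReal (g (y - x) ^ 2) := by
        rw [← lintegral_const_mul' _ _ ENNReal.ofReal_ne_top]
        refine lintegral_mono fun y => ?_
        calc v (tdist x y) * nE volume (an y (an x φ))
            ≤ v (tdist x y) * ENNReal.ofReal (z ^ 2 * Fc x y ^ 2) :=
              mul_le_mul_right (hpair x y) _
          _ = ENNReal.ofReal (z ^ 2) * (v (tdist x y) * ENNReal.ofReal (g (y - x) ^ 2)) := by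
              rw [ENNReal.ofReal_mul (by positivity)]
              ring
      refine h2.trans (mul_le_mul_right ?_ _)
      have hFm : Measurable fun y : Tor n L => v (tdist x y) * ENNReal.ofReal (g (y - x) ^ 2) := by
        refine hvm.mul ?_
        exact ((hgm.comp (measurable_id.sub measurable_const)).pow_const 2).ennreal_ofReal
      rw [← htr _ hFm x]
      have hFm' : Measurable fun u : Tor n L => v (tdist x (u + x)) *
          ENNReal.ofReal (g (u + x - x) ^ 2) := hFm.comp (measurable_add_const x)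
      refine hbox _ hFm' _ ?_
      intro w hw
      have h3 : tdist x (pr L w + x) = el w := by
        unfold tdist el
        congr 1
        refine Finset.sum_congr rfl fun c _ => ?_
        have h4 : x c - (pr L w + x) c = -(pr L w c) := by
          rw [Pi.add_apply]
          abel
        rw [h4, norm_neg, hnorm w (fun c => by
          have := hw c
          rw [abs_le]
          constructor <;> linarith) c, sq_abs]
      have h4 : g (pr L w + x - x) = f w := by
        rw [add_sub_cancel_right]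
        simp only [hg]
        rw [rep_pr w hw]
      rw [h3, h4]
    calc 2⁻¹ * ∫⁻ x, ∫⁻ y, v (tdist x y) * nE volume (an y (an x φ))
        ≤ 2⁻¹ * ∫⁻ _x : Tor n L, ENNReal.ofReal (z ^ 2) *
          ∫⁻ w : Fin n → ℝ, v (el w) * ENNReal.ofReal (f w ^ 2) :=
          mul_le_mul_right (lintegral_mono h1) _
      _ = _ := by
          rw [lintegral_const, hvol, ENNReal.ofReal_mul (by positivity)]
          ring
  -- the number
  have hone : ∀ x : Tor n L, ∫ u, (1 - Fc x u) ≤ A := by
    intro x
    have h1 : Measurable fun u : Tor n L => 1 - Fc x u :=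
      measurable_const.sub (hgm.comp (measurable_id.sub measurable_const))
    rw [integral_eq_lintegral_of_nonneg_ae
      (Filter.Eventually.of_forall fun u => by
        have := (hg01 (u - x)).2
        simp only [hFc, Pi.zero_apply]
        linarith) h1.aestronglyMeasurable]
    apply ENNReal.toReal_le_of_le_ofReal hA0
    have h2 : ∫⁻ u, ENNReal.ofReal (1 - Fc x u) ≤ ∫⁻ u, sp (u - x) := by
      refine lintegral_mono fun u => ?_
      simp only [hFc]
      rcases hspc (u - x) with h3 | h3
      · rw [hsp1 _ h3]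
        simp
      · rw [h3, ← ENNReal.ofReal_one]
        apply ENNReal.ofReal_le_ofReal
        have := (hg01 (u - x)).1
        linarith
    refine h2.trans ?_
    rw [htrs sp hspm x]
    exact hspint
  refine ⟨φ, hφ, hφ1, ?_, ?_, ?_⟩
  · unfold nuE
    have h1 : ∀ x : Tor n L, ENNReal.ofReal (z * (1 - (2 * A + 2 * A * μ * G +
        (1 + 2 * A) * C') * z)) ≤ nE volume (an x φ) := by
      intro x
      refine le_trans (ENNReal.ofReal_le_ofReal ?_) (hlow x)
      refine mul_le_mul_of_nonneg_left ?_ hz0.le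
      have h2 := hone x
      have h3 : 0 ≤ 2 * A * μ * G + (1 + 2 * A) * C' := by positivity
      nlinarith
    calc ENNReal.ofReal (z * (1 - (2 * A + 2 * A * μ * G + (1 + 2 * A) * C') * z) * V)
        = ∫⁻ _x : Tor n L, ENNReal.ofReal (z * (1 - (2 * A + 2 * A * μ * G +
          (1 + 2 * A) * C') * z)) := by
          rw [lintegral_const, hvol, ENNReal.ofReal_mul' hV0]
      _ ≤ ∫⁻ x, nE volume (an x φ) := lintegral_mono h1
  · unfold nuE
    calc ∫⁻ x, nE volume (an x φ) ≤ ∫⁻ _x : Tor n L, ENNReal.ofReal z := lintegral_mono hup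
      _ = ENNReal.ofReal (z * V) := by
          rw [lintegral_const, hvol, ENNReal.ofReal_mul hz0.le]
  · unfold en ken QD
    rw [Measure.restrict_univ]
    have h1 : ENNReal.ofReal μ * Kp φ ≤ ENNReal.ofReal (z ^ 2 * V) *
        (ENNReal.ofReal μ * gr Set.univ f) + ENNReal.ofReal (2 * A * μ * G * z ^ 3 * V) := by
      calc ENNReal.ofReal μ * Kp φ ≤ ENNReal.ofReal μ * (ENNReal.ofReal V *
            ENNReal.ofReal (z ^ 2 + 2 * A * z ^ 3) * gr Set.univ f) := mul_le_mul_right hKp _
        _ = ENNReal.ofReal (z ^ 2 * V) *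
            (ENNReal.ofReal μ * gr Set.univ f) + ENNReal.ofReal (2 * A * μ * G * z ^ 3 * V) := by
            rw [hGr, ← ENNReal.ofReal_mul (by positivity), ← ENNReal.ofReal_mul (by positivity),
              ← ENNReal.ofReal_mul (by positivity), ← ENNReal.ofReal_mul (by positivity),
              ← ENNReal.ofReal_mul (by positivity), ← ENNReal.ofReal_add (by positivity)
                (by positivity)]
            congr 1
            ring
    have h2 : ENNReal.ofReal (2 * A * μ * G * z ^ 3 * V) +
        ENNReal.ofReal (V * (z ^ 2 + 2 * A * z ^ 3) * C' * κ) ≤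
        ENNReal.ofReal ((2 * A + 2 * A * μ * G + (1 + 2 * A) * C') * z ^ 2 * (z + κ) * V) := by
      rw [← ENNReal.ofReal_add (by positivity) (by positivity)]
      apply ENNReal.ofReal_le_ofReal
      have e1 : 2 * A * μ * G * z ^ 3 * V + V * (z ^ 2 + 2 * A * z ^ 3) * C' * κ =
          (z ^ 2 * V) * (2 * A * μ * G * z + (1 + 2 * A * z) * C' * κ) := by ring
      have e2 : (2 * A + 2 * A * μ * G + (1 + 2 * A) * C') * z ^ 2 * (z + κ) * V =
          (z ^ 2 * V) * ((2 * A + 2 * A * μ * G + (1 + 2 * A) * C') * (z + κ)) := by ring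
      rw [e1, e2]
      refine mul_le_mul_of_nonneg_left ?_ (by positivity)
      have e3 : (1 + 2 * A * z) * C' * κ ≤ (1 + 2 * A) * C' * κ := by
        refine mul_le_mul_of_nonneg_right ?_ hκ
        refine mul_le_mul_of_nonneg_right ?_ hC'0
        nlinarith
      have e4 : 0 ≤ 2 * A * (z + κ) := by positivity
      have e5 : 0 ≤ 2 * A * μ * G * κ := by positivity
      have e6 : 0 ≤ (1 + 2 * A) * C' * z := by positivity
      nlinarith
    calc ENNReal.ofReal μ * Kp φ + Hp K φ + Vp v φ
        ≤ (ENNReal.ofReal (z ^ 2 * V) *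
        (ENNReal.ofReal μ * gr Set.univ f) + ENNReal.ofReal (2 * A * μ * G * z ^ 3 * V)) +
          ENNReal.ofReal (V * (z ^ 2 + 2 * A * z ^ 3) * C' * κ) + ENNReal.ofReal (z ^ 2 * V) *
      (2⁻¹ * ∫⁻ w : Fin n → ℝ, v (el w) * ENNReal.ofReal (f w ^ 2)) :=
          add_le_add (add_le_add h1 hHp) hVp
      _ = ENNReal.ofReal (z ^ 2 * V) * (ENNReal.ofReal μ * gr Set.univ f +
          2⁻¹ * ∫⁻ w : Fin n → ℝ, v (el w) * ENNReal.ofReal (f w ^ 2)) +
          (ENNReal.ofReal (2 * A * μ * G * z ^ 3 * V) +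
          ENNReal.ofReal (V * (z ^ 2 + 2 * A * z ^ 3) * C' * κ)) := by ring
      _ ≤ _ := add_le_add le_rfl h2

end

end Pool.Agent.W74.CC
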